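import Pool.Agent.H9.Coch

set_option autoImplicit false

namespace Pool.Agent.Results.MP_a38e10_co.Full

open Pool.Agent.H9.Coch

/-- Cochromatic number: least number of classes, each an independent set or a clique. -/
noncomputable def zeta {V : Type} (G : SimpleGraph V) : ℕ :=
  sInf {n | ∃ f : V → Fin n, ∀ i, G.IsIndepSet {v | f v = i} ∨ G.IsClique {v | f v = i}}

theorem result (k : ℕ) (hk : 5 ≤ k) : ∃ (V : Type) (_ : Fintype V) (G : SimpleGraph V),
    G.cliqueNum < 5 ∧ zeta G = k ∧ G.chromaticNumber = ((zeta G + 3 : ℕ) : ℕ∞) := by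
  obtain ⟨m, rfl⟩ : ∃ m, k = m + 3 + 1 := ⟨k - 4, by omega⟩
  obtain ⟨U, _, G, h1, h2, h3⟩ := exists_tf m
  have hz : zeta (big G (m + 3 + 1)) = m + 3 + 1 := by
    have h4 := big_hom G (m + 3 + 1) _ h2
    rw [show 3 + (m + 1) = m + 3 + 1 by omega] at h4
    refine le_antisymm (Nat.sInf_le h4) ?_
    by_contra q
    obtain ⟨f, hf⟩ := Nat.sInf_mem ⟨_, show _ ∈ {n | ∃ f, Hom (big G (m + 3 + 1)) n f} from h4⟩
    exact big_not_hom G _ m _ h3 (not_le.1 q) (by have := not_le.1 q; unfold zeta Hom at *; omega) f hf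
  refine ⟨_, inferInstance, big G (m + 3 + 1), ?_, hz, ?_⟩
  · by_contra q
    obtain ⟨S, hS⟩ := (big G (m + 3 + 1)).exists_isNClique_cliqueNum
    exact (big_free G _ h1).mono (not_lt.1 q) S hS
  · rw [hz, show m + 3 + 1 + 3 = 6 + m + 1 by omega, Nat.cast_add_one,
      SimpleGraph.chromaticNumber_eq_iff_colorable_not_colorable]
    exact ⟨big_col G _ _ h2, big_not_col G _ _ h3⟩

end Pool.Agent.Results.MP_a38e10_co.Full
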